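import Pool.Agent.helper32.Billiard.Mix

/-!
# MP_94eb8e_an: a non-periodic invariant measure that violates the integrability condition
-/

namespace Pool.Agent.Results.MP_94eb8e_an.Annulus

open Pool.Agent.helper32.Billiard MeasureTheory

theorem result : ∃ B : Table, B.Q = {z : ℂ | 1 / 2 ≤ ‖z‖ ∧ ‖z‖ ≤ 1} ∧
    (∀ i, B.IsClosedCurve i) ∧ B.NoCusps ∧
    ∃ μ : Measure (ℂ × ℂ), B.IsInvariantProbability μ ∧ B.IsNonPeriodic μ ∧
      ¬ B.OseledetsIntegrable μ ∧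
      ∫⁻ x, ENNReal.ofReal (Real.posLog ‖B.coordDeriv B.T x‖) ∂μ = ⊤ ∧
      ∫⁻ x, ENNReal.ofReal (Real.posLog ‖B.coordDeriv B.Tinv x‖) ∂μ = ⊤ := by
  refine ⟨annulus, rfl, fun _ => trivial, fun i _ h => (h trivial).elim, mix,
    isInvariantProbability_mix, isNonPeriodic_mix, ?_, lintegral_mix goodMap_T,
    lintegral_mix goodMap_Tinv⟩
  intro h
  exact absurd (lintegral_mix goodMap_T) (ne_of_lt h.1)

end Pool.Agent.Results.MP_94eb8e_an.Annulus
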